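import Pool.Agent.Y377.IR.Basic
import Pool.Agent.Y333.IL.FGS

/-!
Project IR: denominators of algebraic elements of the fraction field, group version (`G_FR`).
-/

set_option autoImplicit false

namespace Pool.Agent.Y921.IR

open Pool.Agent.Y377.EL Pool.Agent.Y377.IL Pool.Agent.Y377.IR

variable {K : Type} [Field K] [Algebra ℂ K]

/-- the elements of `frac S` which are algebraic over `R` -/
noncomputable def algF (R S : Subalgebra ℂ K) : IntermediateField ℂ K where
  carrier := {y | y ∈ frac S ∧ IsAlgebraic R y}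
  mul_mem' := fun ha hb => ⟨mul_mem ha.1 hb.1, ha.2.mul hb.2⟩
  add_mem' := fun ha hb => ⟨add_mem ha.1 hb.1, ha.2.add hb.2⟩
  algebraMap_mem' := fun c => ⟨(frac S).algebraMap_mem c, alg_of_mem (R.algebraMap_mem c)⟩
  inv_mem' := fun _ hx => ⟨inv_mem hx.1, hx.2.inv⟩

/-- a common denominator in `S` for the whole field -/
theorem common {R S : Subalgebra ℂ K} (hRS : R ≤ S) (hfg : (algF R S).FG) :
    ∃ s ∈ S, s ≠ 0 ∧ ∀ y ∈ algF R S, ∃ r ∈ R, r ≠ 0 ∧ r * (s * y) ∈ S := by
  classical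
  obtain ⟨T, hT⟩ := hfg
  have hTL : ∀ t ∈ T, t ∈ algF R S := fun t ht => hT ▸ IntermediateField.subset_adjoin ℂ _ ht
  set F : IntermediateField ℂ K := frac R with hF
  have hFS : F ≤ frac S := fun y hy => frac_mono hRS hy
  have hint : ∀ t ∈ (T : Set K), IsIntegral F t := by
    intro t ht
    have h1 : IsAlgebraic R t := (hTL t ht).2
    have h2 : IsAlgebraic F.toSubalgebra t := alg_mono (fun r hr => le_frac R hr) h1
    have h3 : IsAlgebraic F t := h2
    exact h3.isIntegral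
  have : Finite (T : Set K) := T.finite_toSet
  have : FiniteDimensional F (IntermediateField.adjoin F (T : Set K)) :=
    IntermediateField.finiteDimensional_adjoin hint
  set b := Module.finBasis F (IntermediateField.adjoin F (T : Set K)) with hb
  have hE : IntermediateField.adjoin F (T : Set K) ≤ IntermediateField.extendScalars hFS := by
    rw [IntermediateField.adjoin_le_iff]
    intro t ht
    exact (hTL t ht).1
  have hLE : algF R S ≤ (IntermediateField.adjoin F (T : Set K)).restrictScalars ℂ := by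
    rw [← hT, IntermediateField.adjoin_le_iff]
    exact IntermediateField.subset_adjoin F _
  have h1 : ∀ i, ∃ s ∈ S, s ≠ 0 ∧ s * (b i : K) ∈ S := fun i => hE (b i).2
  choose σ hσ hσ0 hσb using h1
  refine ⟨∏ i, σ i, S.prod_mem fun i _ => hσ i, Finset.prod_ne_zero_iff.2 fun i _ => hσ0 i, ?_⟩
  intro y hy
  have hy' : y ∈ IntermediateField.adjoin F (T : Set K) := hLE hy
  obtain ⟨c, h3⟩ : ∃ c : Fin (Module.finrank F (IntermediateField.adjoin F (T : Set K))) → F,
      y = ∑ i, (c i : K) * (b i : K) := by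
    refine ⟨fun i => b.repr ⟨y, hy'⟩ i, ?_⟩
    have h4 := congrArg (fun z : IntermediateField.adjoin F (T : Set K) => (z : K))
      (b.sum_repr ⟨y, hy'⟩)
    refine Eq.trans h4.symm ?_
    push_cast
    rfl
  have h2 : ∀ i, ∃ r ∈ R, r ≠ 0 ∧ r * (c i : K) ∈ R := fun i => (c i).2
  choose ρ hρ hρ0 hρb using h2
  refine ⟨∏ i, ρ i, R.prod_mem fun i _ => hρ i, Finset.prod_ne_zero_iff.2 fun i _ => hρ0 i, ?_⟩
  have h5 : (∏ i, ρ i) * ((∏ i, σ i) * y) = ∑ i, ((∏ j ∈ Finset.univ.erase i, ρ j) *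
      (ρ i * (c i : K))) *
      ((∏ j ∈ Finset.univ.erase i, σ j) * (σ i * (b i : K))) := by
    conv_lhs => rw [h3]
    rw [Finset.mul_sum, Finset.mul_sum]
    refine Finset.sum_congr rfl fun i _ => ?_
    rw [← Finset.prod_erase_mul Finset.univ ρ (Finset.mem_univ i),
      ← Finset.prod_erase_mul Finset.univ σ (Finset.mem_univ i)]
    ring
  rw [h5]
  refine S.sum_mem fun i _ => S.mul_mem (hRS (R.mul_mem (R.prod_mem fun j _ => hρ j) (hρb i)))
    (S.mul_mem (S.prod_mem fun j _ => hσ j) (hσb i))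

/-- algebraic elements stay algebraic under an automorphism which preserves the ring -/
theorem alg_map {R : Subalgebra ℂ K} (γ : K ≃ₐ[ℂ] K) (hγ : ∀ r ∈ R, γ r ∈ R) {y : K}
    (hy : IsAlgebraic R y) : IsAlgebraic R (γ y) := by
  obtain ⟨P, hP0, hP⟩ := hy
  let g : R →+* R := ((γ : K →+* K).comp (algebraMap R K)).codRestrict R.toSubring
    (fun r => hγ _ r.2)
  have hg : Function.Injective g := by
    intro a b hab
    have := congrArg Subtype.val hab
    exact Subtype.ext (γ.injective this)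
  refine ⟨P.map g, (Polynomial.map_ne_zero_iff hg).2 hP0, ?_⟩
  rw [Polynomial.aeval_def, Polynomial.eval₂_map]
  have h1 : (algebraMap R K).comp g = (γ : K →+* K).comp (algebraMap R K) := by
    ext r
    rfl
  rw [h1]
  have h2 : Polynomial.eval₂ (algebraMap R K) y P = 0 := hP
  have h3 := Polynomial.hom_eval₂ P (algebraMap R K) (γ : K →+* K) y
  rw [h2, map_zero] at h3
  exact h3.symm

/-- IR-FR -/
theorem t_FR : Pool.Agent.Y377.IR.G_FR := by
  intro K _ _ hK Γ R S hRS hR hS hsimp x hx halg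
  obtain ⟨s, hs, hs0, hsy⟩ := common hRS (Pool.Agent.Y333.IL.t_FGS K hK (algF R S))
  let J : Submodule S K :=
    { carrier := {s | s ∈ S ∧ ∀ y ∈ algF R S, ∃ r ∈ R, r ≠ 0 ∧ r * (s * y) ∈ S}
      add_mem' := by
        rintro a b ⟨ha, ha'⟩ ⟨hb, hb'⟩
        refine ⟨S.add_mem ha hb, fun y hy => ?_⟩
        obtain ⟨r, hr, hr0, h1⟩ := ha' y hy
        obtain ⟨r', hr', hr0', h2⟩ := hb' y hy
        refine ⟨r * r', R.mul_mem hr hr', mul_ne_zero hr0 hr0', ?_⟩
        have h3 : r * r' * ((a + b) * y) = r' * (r * (a * y)) + r * (r' * (b * y)) := by ring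
        rw [h3]
        exact S.add_mem (S.mul_mem (hRS hr') h1) (S.mul_mem (hRS hr) h2)
      zero_mem' := ⟨S.zero_mem, fun y _ => ⟨1, R.one_mem, one_ne_zero, by
        rw [zero_mul, mul_zero]
        exact S.zero_mem⟩⟩
      smul_mem' := by
        rintro c a ⟨ha, ha'⟩
        refine ⟨S.mul_mem c.2 ha, fun y hy => ?_⟩
        obtain ⟨r, hr, hr0, h1⟩ := ha' y hy
        refine ⟨r, hr, hr0, ?_⟩
        have h3 : r * ((c • a) * y) = (c : K) * (r * (a * y)) := by
          rw [Algebra.smul_def]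
          change r * (((c : K) * a) * y) = _
          ring
        rw [h3]
        exact S.mul_mem c.2 h1 }
  have h1 : (1 : K) ∈ J := by
    refine hsimp J (fun y hy => hy.1) ?_ ⟨s, ⟨hs, hsy⟩, hs0⟩
    rintro γ hγ a ⟨ha, ha'⟩
    refine ⟨hS γ hγ a ha, fun y hy => ?_⟩
    have hy' : γ.symm y ∈ algF R S := by
      refine ⟨stabG_frac hS (Γ.inv_mem hγ) hy.1, ?_⟩
      exact alg_map (γ⁻¹) (fun r hr => hR _ (Γ.inv_mem hγ) r hr) hy.2
    obtain ⟨r, hr, hr0, h2⟩ := ha' _ hy'
    refine ⟨γ r, hR γ hγ r hr, fun h0 => hr0 ((map_eq_zero_iff γ γ.injective).1 h0), ?_⟩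
    have h3 := hS γ hγ _ h2
    rw [map_mul, map_mul, γ.apply_symm_apply] at h3
    exact h3
  obtain ⟨r, hr, hr0, h2⟩ := h1.2 x ⟨hx, halg⟩
  rw [one_mul] at h2
  exact ⟨r, hr, hr0, h2⟩

end Pool.Agent.Y921.IR
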